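import Pool.Agent.U52.RH.Heights

set_option autoImplicit false

/-!
# MP_39df77_nt: the sixth (and every even) moment of zeta over random heights

Let `x_0, x_1, ...` be independent with the same law on `[1, 2]`, whose Fourier transform is `O(|u|^(-s))` (the uniform law has
`s = 1`), and let `κ > 0`. Almost surely, for all real `T ≥ T₀` and all `J ≥ T^κ`, the `J` heights `T x_j` behave like the full
interval `[T, 2T]`: the mean of the local `2k`-th moments of zeta at the scale `1 / log T` is at least `c (log T)^(k^2)`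
(`k = 3`: the sixth moment, `c (log T)^9`), and the smoothed shifted `2k`-th moment has the limit predicted by the moment
conjecture, with the arithmetic factor `a_k`.
-/

namespace Pool.Agent.Results.MP_39df77_nt.RandomHeights

open Complex MeasureTheory Filter Topology Set ProbabilityTheory
open scoped ContDiff ENNReal
open Pool.Agent.R461.HM

noncomputable section

/-- the weighted mean of `|ζ(1/2 + i(t + v))|^(2k)` over `v` at the scale `1 / log T` -/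
def localMoment (k N : ℕ) (T t : ℝ) : ℝ≥0∞ :=
  ∫⁻ v : ℝ, ENNReal.ofReal (‖riemannZeta (1 / 2 + I * (t + v))‖ ^ (2 * k) * (Real.log T / (1 + Real.log T * |v|) ^ N))

/-- `(log T)^(-k^2)` times the mean of `ζ(1/2 + iα/log T + it)^k ζ(1/2 + iα/log T - it)^k` over `t = t_j`, `j < J` -/
def shiftedMean (k : ℕ) (α T : ℝ) (J : ℕ) (t : ℕ → ℝ) : ℂ :=
  ((Real.log T : ℂ) ^ (k ^ 2))⁻¹ * ((J : ℂ)⁻¹ * ∑ j ∈ Finset.range J,
    riemannZeta (1 / 2 + I * α / Real.log T + I * t j) ^ k * riemannZeta (1 / 2 + I * α / Real.log T - I * t j) ^ k)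

/-- `φ(α) = ∫ ψ(ξ) e^{iξα} dξ` -/
def phi (ψ : ℝ → ℂ) (α : ℝ) : ℂ := ∫ ξ : ℝ, ψ ξ * exp (I * ξ * α)

/-- the arithmetic factor `a_k` -/
def arith (k : ℕ) : ℝ :=
  ∏' p : Nat.Primes, ((1 - 1 / (p : ℝ)) ^ (k ^ 2) * ∑' m : ℕ, ((m + k - 1).choose m : ℝ) ^ 2 * (1 / (p : ℝ)) ^ m)

/-- `X_0, X_1, ...` are independent with the same law `μ` on `[1, 2]`, and the Fourier transform of `μ` is `O(|u|^(-s))` -/
structure Samples (s : ℝ) {Ω : Type} [MeasurableSpace Ω] (P : Measure Ω) (X : ℕ → Ω → ℝ) : Prop where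
  meas : ∀ j, Measurable (X j)
  indep : iIndepFun X P
  law : ∃ μ : Measure ℝ, (∀ j, P.map (X j) = μ) ∧ (∀ᵐ x ∂μ, x ∈ Icc (1:ℝ) 2) ∧
    ∃ K : ℝ, ∀ u : ℝ, 1 ≤ |u| → ‖∫ x : ℝ, exp (I * (u * x)) ∂μ‖ ≤ K * |u| ^ (-s)

/-- the heights have small character sums -/
lemma heights {Ω : Type} [MeasurableSpace Ω] {P : Measure Ω} [IsProbabilityMeasure P] {X : ℕ → Ω → ℝ} {s κ θ θ₂ : ℝ}
    (h : Samples s P X) (hκ : 0 < κ) (hs : 0 < s) (hs1 : s ≤ 1) (hθ : 0 ≤ θ) (h2 : 0 ≤ θ₂) (h2s : θ₂ < s)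
    (h2κ : 2 * θ₂ < κ) :
    ∀ᵐ w ∂P, ∃ T₀ : ℝ, Real.exp 1 ≤ T₀ ∧ ∀ T : ℝ, T₀ ≤ T → ∀ J : ℕ, T ^ κ ≤ J →
      Heights T (T ^ (2 * θ)) (T ^ (-θ₂)) (unif J (fun j => T * X j w)) := by
  obtain ⟨μ, hlaw, hsup, K, hK⟩ := h.law
  haveI : IsProbabilityMeasure μ := by
    rw [← hlaw 0]
    exact Measure.isProbabilityMeasure_map (h.meas 0).aemeasurable
  have hK0 : 0 ≤ K := by
    have := (norm_nonneg _).trans (hK 1 (by simp))
    simpa using this
  exact U52.RH.ae_heights h.meas h.indep hlaw hsup hs hs1 hK0 hK hκ hθ h2 h2s h2κ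

/-- Let `κ > 0` and `0 < s ≤ 1`. (1) For all `k ≥ 1` (`k = 3` is the sixth moment) and `N` there is `c > 0` such that for all
independent samples `x_j` with the same law on `[1, 2]` with Fourier transform `O(|u|^(-s))`, almost surely there is `T₀` with:
for all real `T ≥ T₀` and all `J ≥ T^κ` the mean of the local `2k`-th moments at the heights `T x_j`, `j < J`, is at least
`c (log T)^(k^2)`. (2) Almost surely: for all `k ≥ 1` and all smooth `ψ` with compact support vanishing above `2θ`,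
`θ < s`, `2θ < κ`, the integral over `α` of `φ(α)` times the shifted mean tends to
`2π a_k ∫_0^∞ u^(k²-1)/(k²-1)! ψ(2u) du` as `T → ∞`, uniformly over `J ≥ T^κ`. (3) The uniform law has `s = 1`. -/
theorem result (κ s : ℝ) (hκ : 0 < κ) (hs : 0 < s) (hs1 : s ≤ 1) :
    (∀ k N : ℕ, 1 ≤ k → ∃ c : ℝ, 0 < c ∧
      ∀ (Ω : Type) [MeasurableSpace Ω] (P : Measure Ω) [IsProbabilityMeasure P] (X : ℕ → Ω → ℝ), Samples s P X →
        ∀ᵐ w ∂P, ∃ T₀ : ℝ, ∀ T : ℝ, T₀ ≤ T → ∀ J : ℕ, T ^ κ ≤ J →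
          ENNReal.ofReal (c * Real.log T ^ (k ^ 2)) ≤
            (J : ℝ≥0∞)⁻¹ * ∑ j ∈ Finset.range J, localMoment k N T (T * X j w)) ∧
    (∀ (Ω : Type) [MeasurableSpace Ω] (P : Measure Ω) [IsProbabilityMeasure P] (X : ℕ → Ω → ℝ), Samples s P X →
      ∀ᵐ w ∂P, ∀ k : ℕ, 1 ≤ k → ∀ ψ : ℝ → ℂ, ContDiff ℝ ∞ ψ → HasCompactSupport ψ →
        (∃ θ : ℝ, θ < s ∧ 2 * θ < κ ∧ ∀ ξ : ℝ, 2 * θ < ξ → ψ ξ = 0) → ∀ ε : ℝ, 0 < ε →
        ∃ T₀ : ℝ, ∀ T : ℝ, T₀ ≤ T → ∀ J : ℕ, T ^ κ ≤ J →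
          Integrable (fun α : ℝ => phi ψ α * shiftedMean k α T J (fun j => T * X j w)) ∧
          ‖(∫ α : ℝ, phi ψ α * shiftedMean k α T J (fun j => T * X j w)) - 2 * Real.pi * arith k *
            ∫ u in Ioi (0:ℝ), (u : ℂ) ^ (k ^ 2 - 1) / (k ^ 2 - 1).factorial * ψ (2 * u)‖ ≤ ε) ∧
    (∀ u : ℝ, 1 ≤ |u| → ‖∫ x : ℝ, exp (I * (u * x)) ∂(volume.restrict (Icc (1:ℝ) 2))‖ ≤ 2 * |u| ^ (-1 : ℝ)) := by
  set m : ℝ := min s (κ / 2) with hm
  have hm0 : 0 < m := lt_min hs (by linarith)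
  have hms : m ≤ s := min_le_left _ _
  have hmκ : m ≤ κ / 2 := min_le_right _ _
  refine ⟨fun k N hk => ?_, fun Ω _ P _ X hX => ?_, fun u hu => ?_⟩
  · obtain ⟨c, T₀, hc, hT₀, hmain⟩ := lower' hk N (θ := m / 4) (θ' := m / 2) (by linarith) (by linarith)
    refine ⟨c, hc, fun Ω _ P _ X hX => ?_⟩
    filter_upwards [heights hX hκ hs hs1 (θ := m / 4) (θ₂ := m / 2) (by linarith) (by linarith) (by linarith) (by linarith)]
      with w ⟨T₁, hT₁, hH1⟩
    refine ⟨max T₀ T₁, fun T hT J hJ => ?_⟩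
    have hTa := (le_max_left _ _).trans hT
    have hTb := (le_max_right _ _).trans hT
    have hTe := hT₁.trans hTb
    have hT0 : 0 < T := (Real.exp_pos 1).trans_le hTe
    have hL : 1 ≤ Real.log T := by rwa [Real.le_log_iff_exp_le hT0]
    have h3 := hmain T hTa _ (hH1 T hTb J hJ)
    rw [lintegral_unif k N (by linarith)] at h3
    exact h3
  · have hr0 : ∀ r : ℕ, 0 ≤ m * (1 - 1 / ((r : ℝ) + 1)) := by
      intro r
      have : 1 / ((r : ℝ) + 1) ≤ 1 := by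
        rw [div_le_one (by positivity)]
        have : (0:ℝ) ≤ r := by positivity
        linarith
      have : 0 ≤ 1 - 1 / ((r : ℝ) + 1) := by linarith
      positivity
    have hrm : ∀ r : ℕ, m * (1 - 1 / ((r : ℝ) + 1)) < m := by
      intro r
      have : 0 < 1 / ((r : ℝ) + 1) := by positivity
      nlinarith
    have hrr : ∀ r : ℕ, m * (1 - 1 / ((r : ℝ) + 1)) < m * (1 - 1 / (((r + 1 : ℕ) : ℝ) + 1)) := by
      intro r
      have h1 : 1 / (((r + 1 : ℕ) : ℝ) + 1) < 1 / ((r : ℝ) + 1) := by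
        refine one_div_lt_one_div_of_lt (by positivity) ?_
        push_cast
        linarith
      nlinarith
    have hall : ∀ᵐ w ∂P, ∀ r : ℕ, ∃ T₀ : ℝ, Real.exp 1 ≤ T₀ ∧ ∀ T : ℝ, T₀ ≤ T → ∀ J : ℕ, T ^ κ ≤ J →
        Heights T (T ^ (2 * (m * (1 - 1 / ((r : ℝ) + 1))))) (T ^ (-(m * (1 - 1 / (((r + 1 : ℕ) : ℝ) + 1)))))
          (unif J (fun j => T * X j w)) := by
      rw [ae_all_iff]
      intro r
      have h1 := hrm (r + 1)
      exact heights hX hκ hs hs1 (hr0 r) (hr0 (r + 1)) (by linarith) (by linarith)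
    filter_upwards [hall] with w hH k hk ψ hψ hc ⟨θ, hθs, hθκ, hz⟩ ε hε
    have hθm : θ < m := lt_min hθs (by linarith)
    obtain ⟨r, hr⟩ : ∃ r : ℕ, θ ≤ m * (1 - 1 / ((r : ℝ) + 1)) := by
      obtain ⟨r, hr⟩ := exists_nat_one_div_lt (show 0 < (m - θ) / m by
        have : 0 < m - θ := by linarith
        positivity)
      refine ⟨r, ?_⟩
      rw [lt_div_iff₀ hm0] at hr
      nlinarith
    obtain ⟨T₁, hT₁, hH1⟩ := hH r
    obtain ⟨T₀, hT₀, hlim⟩ := limit_form (hr0 r) (hrr r) hψ hc (fun ξ hξ => hz ξ (by linarith)) hk ε hε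
    refine ⟨max T₀ T₁, fun T hT J hJ => ?_⟩
    have hTa := (le_max_left _ _).trans hT
    have hTb := (le_max_right _ _).trans hT
    obtain ⟨g1, g2⟩ := hlim T hTa _ (hH1 T hTb J hJ)
    have e1 : (fun α : ℝ => W182.KO.P ψ (α * I) * Qn k (unif J (fun j => T * X j w)) α T) =
        fun α : ℝ => phi ψ α * shiftedMean k α T J (fun j => T * X j w) := by
      funext α
      congr 1
      · unfold W182.KO.P phi
        congr 1; funext ξ
        congr 2
        ring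
      · unfold Qn shiftedMean
        rw [integral_unif]
    rw [e1] at g1 g2
    exact ⟨g1, g2⟩
  · have hu0 : u ≠ 0 := by
      intro h
      rw [h, abs_zero] at hu
      linarith
    have hc0 : (I * (u : ℂ)) ≠ 0 := mul_ne_zero I_ne_zero (by exact_mod_cast hu0)
    rw [integral_Icc_eq_integral_Ioc, ← intervalIntegral.integral_of_le (by norm_num : (1:ℝ) ≤ 2)]
    have e1 : (∫ x in (1:ℝ)..2, exp (I * (u * x))) = (exp (I * u * (2:ℝ)) - exp (I * u * (1:ℝ))) / (I * u) := by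
      rw [← integral_exp_mul_complex hc0]
      congr 1; funext x
      congr 1; ring
    rw [e1, norm_div, norm_mul, norm_I, one_mul, Complex.norm_real, Real.norm_eq_abs, Real.rpow_neg_one,
      ← div_eq_mul_inv]
    refine div_le_div_of_nonneg_right ?_ (abs_nonneg u)
    refine (norm_sub_le _ _).trans ?_
    have h1 : ∀ y : ℝ, ‖exp (I * u * (y:ℝ))‖ = 1 := by
      intro y
      rw [show I * (u : ℂ) * (y : ℂ) = ((u * y : ℝ) : ℂ) * I by push_cast; ring, norm_exp_ofReal_mul_I]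
    rw [h1, h1]
    norm_num

end

end Pool.Agent.Results.MP_39df77_nt.RandomHeights
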